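import Pool.Agent.W477.GM.Stms

/-! GM-CONV: conversion of definable sets to formulas with numbered variables. -/

set_option maxHeartbeats 1000000
set_option linter.all false

namespace Pool.Agent.W477.GM.W683Conv

open Pool.Agent.W477.GM
open FirstOrder FirstOrder.Language
open Pool.Agent.Helper672.Plain (LSet Mem Sym)

universe u

/-- The variable of a term. -/
def tv {α : Type u} {n : ℕ} (e : α → ℕ) (N : ℕ) : LSet.Term (α ⊕ Fin n) → ℕ
  | .var (.inl a) => e a
  | .var (.inr k) => N + k
  | .func (f : Empty) _ => nomatch f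

theorem tv_real {M : Type 1} [LSet.Structure M] {α : Type u} {n : ℕ} (e : α → ℕ) (N : ℕ)
    (t : LSet.Term (α ⊕ Fin n)) (v : α → M) (xs : Fin n → M) (w : ℕ → M)
    (h1 : ∀ a, w (e a) = v a) (h2 : ∀ k : Fin n, w (N + k) = xs k) :
    t.realize (Sum.elim v xs) = w (tv e N t) := by
  rcases t with (a | k) | ⟨f, ts⟩
  · simp [tv, h1]
  · simp [tv, h2]
  · exact Empty.elim f

theorem main {M : Type 1} [LSet.Structure M] {α : Type u} (e : α → ℕ) (N : ℕ)
    (he : ∀ a, e a < N) {n : ℕ} (φ : LSet.BoundedFormula α n) :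
    ∃ ψ : Fm, ∀ (v : α → M) (xs : Fin n → M) (w : ℕ → M), (∀ a, w (e a) = v a) →
      (∀ k : Fin n, w (N + k) = xs k) →
        (φ.Realize v xs ↔ SatR Mem (fun _ => True) ψ w) := by
  induction φ with
  | falsum => exact ⟨.fls, fun v xs w _ _ => Iff.rfl⟩
  | equal t₁ t₂ =>
    refine ⟨.eq (tv e N t₁) (tv e N t₂), fun v xs w h1 h2 => ?_⟩
    show t₁.realize (Sum.elim v xs) = t₂.realize (Sum.elim v xs) ↔ _
    rw [tv_real e N t₁ v xs w h1 h2, tv_real e N t₂ v xs w h1 h2]
    exact Iff.rfl
  | rel R ts =>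
    cases R
    refine ⟨.mem (tv e N (ts 0)) (tv e N (ts 1)), fun v xs w h1 h2 => ?_⟩
    show Structure.RelMap _ (fun i => (ts i).realize (Sum.elim v xs)) ↔
      Mem (w (tv e N (ts 0))) (w (tv e N (ts 1)))
    rw [← tv_real e N (ts 0) v xs w h1 h2, ← tv_real e N (ts 1) v xs w h1 h2]
    unfold Mem
    have : (fun i => (ts i).realize (Sum.elim v xs)) =
        ![(ts 0).realize (Sum.elim v xs), (ts 1).realize (Sum.elim v xs)] := by
      funext i
      fin_cases i <;> rfl
    rw [this]
  | imp a b iha ihb =>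
    obtain ⟨ψ₁, h₁⟩ := iha
    obtain ⟨ψ₂, h₂⟩ := ihb
    refine ⟨.imp ψ₁ ψ₂, fun v xs w h1 h2 => ?_⟩
    rw [BoundedFormula.realize_imp, h₁ v xs w h1 h2, h₂ v xs w h1 h2]
    exact Iff.rfl
  | @all n a iha =>
    obtain ⟨ψ, h⟩ := iha
    refine ⟨.all (N + n) ψ, fun v xs w h1 h2 => ?_⟩
    rw [BoundedFormula.realize_all]
    have key : ∀ x : M, (a.Realize v (Fin.snoc xs x) ↔
        SatR Mem (fun _ => True) ψ (Function.update w (N + n) x)) := by
      intro x
      refine h v (Fin.snoc xs x) (Function.update w (N + n) x) ?_ ?_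
      · intro a
        rw [Function.update_of_ne, h1 a]
        have := he a
        omega
      · intro k
        refine Fin.lastCases ?_ (fun k => ?_) k
        · simp
        · rw [Fin.snoc_castSucc, Function.update_of_ne]
          · exact h2 k
          · have := k.2
            simp only [Fin.val_castSucc]
            omega
    constructor
    · intro hx x _
      exact (key x).1 (hx x)
    · intro hx x
      exact (key x).2 (hx x trivial)

theorem gen {M : Type 1} [LSet.Structure M] (A : Set M) (hA : ∃ a, a ∈ A) (k : ℕ)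
    (s : Set (Fin k → M)) (hs : A.Definable LSet s) :
    ∃ (φ : Fm) (v : ℕ → M), (∀ i, v i ∈ A) ∧ ∀ x : Fin k → M,
      (x ∈ s ↔ SatR Mem (fun _ => True) φ (fun i => if h : i < k then x ⟨i, h⟩ else v i)) := by
  classical
  obtain ⟨a0, ha0⟩ := hA
  obtain ⟨A0, hA0, hd⟩ := Set.definable_iff_finitely_definable.1 hs
  obtain ⟨φ, hφ⟩ := Set.definable_iff_exists_formula_sum.1 hd
  obtain ⟨m, ⟨E⟩⟩ : ∃ m, Nonempty ((A0 : Set M) ≃ Fin m) := ⟨_, ⟨Finite.equivFin _⟩⟩
  let e : ((A0 : Set M) ⊕ Fin k) → ℕ := Sum.elim (fun a => k + (E a : ℕ)) (fun i => (i : ℕ))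
  have he : ∀ a, e a < k + m := by
    rintro (a | i)
    · have := (E a).2
      show k + (E a : ℕ) < k + m
      omega
    · have := i.2
      show (i : ℕ) < k + m
      omega
  obtain ⟨ψ, hψ⟩ := main (M := M) e (k + m) he φ
  let v : ℕ → M := fun i => if h : i - k < m then (E.symm ⟨i - k, h⟩).1 else a0
  refine ⟨ψ, v, ?_, ?_⟩
  · intro i
    by_cases h : i - k < m
    · simp only [v, dif_pos h]
      exact hA0 (E.symm ⟨i - k, h⟩).2
    · simp only [v, dif_neg h]
      exact ha0
  · intro x
    rw [hφ]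
    show φ.Realize (Sum.elim (↑) x) ↔ _
    unfold Formula.Realize
    apply hψ
    · rintro (a | i)
      · have h1 : ¬ (k + (E a : ℕ) < k) := by omega
        have h2 : k + (E a : ℕ) - k = (E a : ℕ) := by omega
        show (if h : k + (E a : ℕ) < k then x ⟨_, h⟩ else v (k + (E a : ℕ))) = a.1
        rw [dif_neg h1]
        show (if h : k + (E a : ℕ) - k < m then (E.symm ⟨k + (E a : ℕ) - k, h⟩).1 else a0) = a.1
        have h3 : k + (E a : ℕ) - k < m := by
          rw [h2]
          exact (E a).2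
        rw [dif_pos h3]
        have h4 : (⟨k + (E a : ℕ) - k, h3⟩ : Fin m) = E a := Fin.ext h2
        rw [h4, Equiv.symm_apply_apply]
      · show (if h : (i : ℕ) < k then x ⟨_, h⟩ else v (i : ℕ)) = x i
        rw [dif_pos i.2]
    · intro j
      exact j.elim0

theorem conv_holds : P_CONV := by
  intro M _ A S hA hS
  obtain ⟨φ, v, hv, h⟩ := gen A hA 1 _ hS
  refine ⟨φ, v, hv, fun x => ?_⟩
  have := h (fun _ => x)
  have e1 : (fun i => if h : i < 1 then (fun _ : Fin 1 => x) ⟨i, h⟩ else v i) =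
      Function.update v 0 x := by
    funext i
    by_cases hi : i < 1
    · have : i = 0 := by omega
      subst this
      simp
    · have : i ≠ 0 := by omega
      simp [this]
  rw [← e1]
  exact this

theorem conv2_holds : P_CONV2 := by
  intro M _ F hM hS
  obtain ⟨a⟩ := hM
  obtain ⟨φ, v, hv, h⟩ := gen Set.univ ⟨a, trivial⟩ 2 _ hS
  refine ⟨φ, v, fun x y => ?_⟩
  have := h ![x, y]
  have e1 : (fun i => if h : i < 2 then (![x, y] : Fin 2 → M) ⟨i, h⟩ else v i) =
      Function.update (Function.update v 0 x) 1 y := by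
    funext i
    rcases Nat.lt_or_ge i 2 with hi | hi
    · have : i = 0 ∨ i = 1 := by omega
      rcases this with rfl | rfl
      · simp
      · simp
    · have h0 : i ≠ 0 := by omega
      have h1 : i ≠ 1 := by omega
      have h2 : ¬ i < 2 := by omega
      rw [dif_neg h2, Function.update_of_ne h1, Function.update_of_ne h0]
  rw [← e1]
  exact this

end Pool.Agent.W477.GM.W683Conv
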